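import Pool.Agent.H174.GP.StH

/-! Project GP (helper174): the deterministic comparison for `Hw`. -/

set_option autoImplicit false

namespace Pool.Agent.H75.GP174

open Pool.Agent.H174.GP

theorem sum_quarter (x : ℕ) :
    ∑ u ∈ Finset.Icc 1 x, (u : ℝ) ^ (1 / 4 : ℝ) / (u : ℝ) ≤ 4 * (x : ℝ) ^ (1 / 4 : ℝ) := by
  induction x with
  | zero => simp
  | succ x ih =>
    rw [Finset.sum_Icc_succ_top (by omega)]
    obtain ⟨a, ha⟩ : ∃ a : ℝ, a = (x : ℝ) ^ (1 / 4 : ℝ) := ⟨_, rfl⟩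
    obtain ⟨b, hb⟩ : ∃ b : ℝ, b = ((x + 1 : ℕ) : ℝ) ^ (1 / 4 : ℝ) := ⟨_, rfl⟩
    have ha0 : 0 ≤ a := by
      rw [ha]
      exact Real.rpow_nonneg (Nat.cast_nonneg _) _
    have hb0 : 0 < b := by
      rw [hb]
      apply Real.rpow_pos_of_pos
      exact_mod_cast Nat.succ_pos x
    have ha4 : a ^ 4 = x := by
      rw [ha, ← Real.rpow_natCast, ← Real.rpow_mul (Nat.cast_nonneg _)]
      norm_num
    have hb4 : b ^ 4 = (x : ℝ) + 1 := by
      rw [hb, ← Real.rpow_natCast, ← Real.rpow_mul (Nat.cast_nonneg _)]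
      push_cast
      norm_num
    rw [← ha] at ih
    rw [← hb]
    have hcast : ((x + 1 : ℕ) : ℝ) = b ^ 4 := by
      rw [hb4]
      push_cast
      rfl
    rw [hcast]
    have h1 : b / b ^ 4 ≤ 4 * b - 4 * a := by
      rw [div_le_iff₀ (by positivity)]
      have h2 : 0 ≤ b * ((b - a) ^ 2 * (3 * b ^ 2 + 2 * a * b + a ^ 2)) := by positivity
      have h3 : b ^ 4 - a ^ 4 = 1 := by rw [ha4, hb4]; ring
      have h4 : (4 * b - 4 * a) * b ^ 4 - b =
          b * ((b - a) ^ 2 * (3 * b ^ 2 + 2 * a * b + a ^ 2)) + b * (b ^ 4 - a ^ 4 - 1) := by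
        ring
      rw [h3, sub_self, mul_zero, add_zero] at h4
      linarith
    linarith

theorem gp_hdet : Pool.Agent.H174.GP.S_Hdet := by
  intro n z ω' D hD h x hx
  rw [Finset.mem_Icc] at hx
  unfold Hw
  rw [Finset.mul_sum, ← Finset.sum_sub_distrib]
  refine (Finset.abs_sum_le_sum_abs _ _).trans ?_
  have h1 : ∀ u ∈ Finset.Icc 1 x, |Real.sqrt 2 * (S z u / (u : ℝ)) - S ω' u / (u : ℝ)| ≤
      D * ((u : ℝ) ^ (1 / 4 : ℝ) / (u : ℝ)) := by
    intro u hu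
    rw [Finset.mem_Icc] at hu
    have hu0 : (0 : ℝ) < u := by exact_mod_cast (by omega : 0 < u)
    have h2 := h u (Finset.mem_Icc.2 ⟨hu.1, hu.2.trans hx.2⟩)
    have e : Real.sqrt 2 * (S z u / (u : ℝ)) - S ω' u / (u : ℝ) =
        (Real.sqrt 2 * S z u - S ω' u) / u := by ring
    rw [e, abs_div, abs_of_pos hu0, ← mul_div_assoc]
    exact div_le_div_of_nonneg_right h2 hu0.le
  refine (Finset.sum_le_sum h1).trans ?_
  rw [← Finset.mul_sum]
  have h2 := mul_le_mul_of_nonneg_left (sum_quarter x) hD.le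
  linarith

end Pool.Agent.H75.GP174
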